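import Pool.Agent.W102.TD.Defs

set_option autoImplicit false

namespace Pool.Agent.W753.TD

open Pool.Agent.W102.TD Finset

/-- TD-ROT -/
theorem ROT (h : Pool.Agent.W102.TD.COEF) : Pool.Agent.W102.TD.ROT := by
  intro c w d
  have h1 : Matrix.trace (Mw xa xb (c :: w)) = Matrix.trace (Mw xa xb (w ++ [c])) := by
    have e1 : Mw xa xb (c :: w) = Lm xa xb c * Mw xa xb w := by
      simp [Mw]
    have e2 : Mw xa xb (w ++ [c]) = Mw xa xb w * Lm xa xb c := by
      simp [Mw]
    rw [e1, e2, Matrix.trace_mul_comm]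
  rw [Matrix.trace_fin_two, Matrix.trace_fin_two] at h1
  have h2 := h (c :: w) false false d
  have h3 := h (c :: w) true true d
  have h4 := h (w ++ [c]) false false d
  have h5 := h (w ++ [c]) true true d
  have h6 : (Mw xa xb (c :: w) 0 0).coeff d + (Mw xa xb (c :: w) 1 1).coeff d =
      (Mw xa xb (w ++ [c]) 0 0).coeff d + (Mw xa xb (w ++ [c]) 1 1).coeff d := by
    have := congrArg (fun p : LaurentPolynomial ℚ => p.coeff d) h1
    simpa using this
  have h7 : ((cnt (c :: w) false false d : ℕ) : ℚ) + (cnt (c :: w) true true d : ℕ) =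
      (cnt (w ++ [c]) false false d : ℕ) + (cnt (w ++ [c]) true true d : ℕ) := by
    have hl : (w ++ [c]).length = (c :: w).length := by simp
    have hp : (2 : ℚ) ^ (c :: w).length ≠ 0 := by positivity
    simp only [ix] at h2 h3 h4 h5
    rw [hl] at h4 h5
    rw [h2, h3, h4, h5] at h6
    field_simp at h6
    exact h6
  exact_mod_cast h7

end Pool.Agent.W753.TD
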